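import Mathlib
import Pool.Agent.Q36.SE.Main
import Pool.Agent.Q36.SE.Pow

set_option autoImplicit false

/-!
The Scarf complex of `E_q^r` supports no free resolution for `q ≥ 6` and `r ≥ 6`.

The definitions of the statement are in `Pool.Agent.Q36.SE.Defs`:
* `NE q`: the nonempty subsets of `[q]`, indexing the variables of `S_q`;
* `extremal k q`: the ideal generated by `ε_i = ∏_{A ∋ i} x_A`;
* `V q r`: the vectors `a ∈ ℕ^q` with coordinate sum `r`; `lab a`: the exponent of `ε^a`;
* `lcmLab σ`: the exponent of the least common multiple of the labels of the vertices of `σ`;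
* `scarf q r`: the Scarf complex; `IsChain`, `dif`, `aug`: the homogenized chain complex of a labelled
  complex; `Supports k X I`: the labelled complex `X` supports a free resolution of `I`.
-/

namespace Pool.Agent.Results.MP_0a8151_al.NotScarf

open Q36.SE MvPolynomial

/-- For all `q, r ≥ 6` and every field `k` the Scarf complex of `E_q^r` supports no free resolution of
`E_q^r`: the monomials `ε^a` are the minimal generators of `E_q^r`, and for every ordering of the
vertices there is a cycle in homological degree two of the homogenized chain complex of the Scarf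
complex which is not a boundary. -/
theorem result (k : Type*) [Field k] (q r : ℕ) (hq : 6 ≤ q) (hr : 6 ≤ r) :
    extremal k q ^ r = Ideal.span (Set.range fun a : V q r => monomial (lab a) (1 : k)) ∧
    (∀ a b : V q r, lab a ≤ lab b → a = b) ∧
    ∀ [LinearOrder (V q r)],
      (∃ c, IsChain k (scarf q r) 2 c ∧ dif k c = 0 ∧
        ¬ ∃ b, IsChain k (scarf q r) 3 b ∧ dif k b = c) ∧
      ¬ Supports k (scarf q r) (extremal k q ^ r) := by
  refine ⟨pow_eq k r, fun _ _ h => lab_le h, ?_⟩
  intro _
  obtain ⟨c, hc, h0, hb⟩ := cycle k hq hr
  exact ⟨⟨c, hc, h0, hb⟩, fun h => hb (h.2.2.2 2 (by norm_num) c hc h0)⟩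

end Pool.Agent.Results.MP_0a8151_al.NotScarf
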